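import Mathlib
import Pool.Agent.H319R2.GTk

set_option autoImplicit false

/-!
Almost no positive integer is the length of a cycle of the `3x+k` map on the integers.
-/

namespace Pool.Agent.Results.MP_7f88e4_nt.CycleLengths

open Finset

/-- The `3x+k` map on the integers. -/
def T (k : ℤ) (x : ℤ) : ℤ := if x % 2 = 0 then x / 2 else (3 * x + k) / 2

/-- The lengths of the cycles of the `3x+k` map on the integers. -/
def cycleLengths (k : ℤ) : Set ℕ := {p | 0 < p ∧ ∃ x : ℤ, Function.minimalPeriod (T k) x = p}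

/-- every cycle has an element of least absolute value -/
theorem exists_min {k : ℤ} {p : ℕ} (hp : p ∈ cycleLengths k) :
    ∃ y : ℤ, Function.minimalPeriod (T k) y = p ∧ ∀ j, |y| ≤ |(T k)^[j] y| := by
  obtain ⟨hp0, x, hx⟩ := hp
  have hper : x ∈ Function.periodicPts (T k) := by
    rw [← Function.minimalPeriod_pos_iff_mem_periodicPts, hx]; exact hp0
  obtain ⟨i, hi⟩ : ∃ i : ℕ, ∀ j : ℕ, ((T k)^[i] x).natAbs ≤ ((T k)^[j] x).natAbs := by
    classical
    have hne : ∃ n : ℕ, ∃ i : ℕ, ((T k)^[i] x).natAbs = n := ⟨_, 0, rfl⟩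
    obtain ⟨i, hi⟩ := Nat.find_spec hne
    refine ⟨i, fun j => ?_⟩
    rw [hi]
    exact Nat.find_min' hne ⟨j, rfl⟩
  refine ⟨(T k)^[i] x, ?_, ?_⟩
  · rw [Function.minimalPeriod_apply_iterate hper, hx]
  · intro j
    rw [← Function.iterate_add_apply]
    have := hi (j + i)
    rw [Int.abs_eq_natAbs, Int.abs_eq_natAbs]
    exact_mod_cast this

/-- For every `η` larger than the base-two binary entropy `0.94995...` of `log 2 / log 3` there is
an absolute constant `A` such that for every `k ≡ 1, 5 mod 6` and every `P ≥ 1` at most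
`A |k| P ^ η` of the numbers `1, ..., P` are lengths of cycles of the `3x+k` map on the integers;
`η = 0.951` is admissible. -/
theorem result :
    (∀ η : ℝ, Real.binEntropy (Real.log 2 / Real.log 3) / Real.log 2 < η →
      ∃ A : ℝ, ∀ k : ℤ, k % 6 = 1 ∨ k % 6 = 5 → ∀ P : ℕ, 1 ≤ P →
        (Set.ncard {p : ℕ | p ∈ cycleLengths k ∧ p ≤ P} : ℝ) ≤ A * |(k : ℝ)| * (P : ℝ) ^ η) ∧
    Real.binEntropy (Real.log 2 / Real.log 3) / Real.log 2 < 0.951 := by
  classical
  refine ⟨?_, Pool.Agent.H319R2.beta_lt⟩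
  intro η' hη'
  change Pool.Agent.H319R2.beta < η' at hη'
  set η : ℝ := min η' 0.96 with hηdef
  have hη : Pool.Agent.H319R2.beta < η := by
    rw [hηdef, lt_min_iff]
    exact ⟨hη', by have := Pool.Agent.H319R2.beta_lt; linarith⟩
  have hη1 : η < 1 := lt_of_le_of_lt (min_le_right _ _) (by norm_num)
  have hη12 : 12 / 13 < η := Pool.Agent.H319R2.beta_gt.trans hη
  obtain ⟨C1, hC1, hsp⟩ := Pool.Agent.H319R2.Tk.sparse η hη hη1
  obtain ⟨C2, hC2, hrig⟩ := Pool.Agent.H319R2.Tk.cycle_rigid η hη hη1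
  obtain ⟨C3, hC3, hbohr⟩ := Pool.Agent.H319R2.bohr_count
  refine ⟨3 * C1 + C3 * (C2 + 1) + 2, ?_⟩
  intro k hk P hP
  have hk2 : k % 2 = 1 := by omega
  have hk0 : k ≠ 0 := by rintro rfl; simp at hk2
  have hPr : (1 : ℝ) ≤ P := by exact_mod_cast hP
  have hP0 : (0 : ℝ) < P := by linarith
  set κ : ℝ := |(k : ℝ)| with hκ
  have hκ1 : 1 ≤ κ := by
    have : (1 : ℤ) ≤ |k| := Int.one_le_abs hk0
    rw [hκ]; exact_mod_cast this
  have hκ0 : 0 < κ := by linarith
  have hpe : (P : ℝ) ^ η ≤ (P : ℝ) ^ η' :=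
    Real.rpow_le_rpow_of_exponent_le hPr (min_le_left _ _)
  suffices h : (Set.ncard {p : ℕ | p ∈ cycleLengths k ∧ p ≤ P} : ℝ) ≤
      (3 * C1 + C3 * (C2 + 1) + 2) * κ * (P : ℝ) ^ η from
    h.trans (mul_le_mul_of_nonneg_left hpe (by positivity))
  have hch : ∀ p : ℕ, ∃ y : ℤ, p ∈ cycleLengths k →
      Function.minimalPeriod (T k) y = p ∧ ∀ j, |y| ≤ |(T k)^[j] y| := by
    intro p
    by_cases hp : p ∈ cycleLengths k
    · obtain ⟨y, hy⟩ := exists_min hp
      exact ⟨y, fun _ => hy⟩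
    · exact ⟨0, fun h => absurd h hp⟩
  choose f hf using hch
  set L : Finset ℕ := (range (P + 1)).filter (fun p => p ∈ cycleLengths k) with hL
  have hset : {p : ℕ | p ∈ cycleLengths k ∧ p ≤ P} = (L : Set ℕ) := by
    ext p
    rw [hL]
    simp only [Set.mem_ofPred_eq, coe_filter, mem_range, Nat.lt_succ_iff]
    tauto
  rw [hset, Set.ncard_coe_finset]
  -- the threshold
  set M : ℝ := 3 * κ * P with hM
  have hM0 : 0 < M := by positivity
  have hM1 : 2 * κ + 1 ≤ M := by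
    have : 3 * κ ≤ 3 * κ * P := le_mul_of_one_le_right (by positivity) hPr
    rw [hM]; linarith
  set L1 := L.filter (fun p => |((f p : ℤ) : ℝ)| ≤ M) with hL1
  set L2 := L.filter (fun p => ¬ |((f p : ℤ) : ℝ)| ≤ M) with hL2
  have hsplit : L1.card + L2.card = L.card := by
    rw [hL1, hL2]; exact card_filter_add_card_filter_not (s := L) _
  have hLmem : ∀ p ∈ L, p ∈ cycleLengths k ∧ p ≤ P := by
    intro p hp
    rw [hL, mem_filter, mem_range] at hp
    exact ⟨hp.2, by omega⟩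
  have h1 : (L1.card : ℝ) ≤ 3 * C1 * κ * (P : ℝ) ^ η := by
    have hinj : Set.InjOn f L1 := by
      intro p hp p' hp' h
      have hp := (mem_filter.1 hp).1
      have hp' := (mem_filter.1 hp').1
      rw [← (hf p (hLmem p hp).1).1, ← (hf p' (hLmem p' hp').1).1, h]
    have h2 : (L1.card : ℝ) ≤ C1 * κ ^ (1 - η) * M ^ η := by
      rw [← card_image_of_injOn hinj]
      apply hsp k hk2 _ (Pool.Agent.H319R2.G.tame_periodic (T k)) M (by linarith)
      intro x hx
      rw [mem_image] at hx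
      obtain ⟨p, hp, rfl⟩ := hx
      rw [hL1, mem_filter] at hp
      refine ⟨?_, hp.2⟩
      rw [← Function.minimalPeriod_pos_iff_mem_periodicPts, (hf p (hLmem p hp.1).1).1]
      exact (hLmem p hp.1).1.1
    have e : C1 * κ ^ (1 - η) * M ^ η = 3 ^ η * (C1 * κ * (P : ℝ) ^ η) := by
      rw [hM, Real.mul_rpow (by positivity) hP0.le, Real.mul_rpow (by norm_num) hκ0.le,
        Real.rpow_sub hκ0, Real.rpow_one]
      field_simp
    rw [e] at h2
    have h3 : (3 : ℝ) ^ η ≤ 3 := by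
      calc (3 : ℝ) ^ η ≤ 3 ^ (1 : ℝ) := Real.rpow_le_rpow_of_exponent_le (by norm_num) hη1.le
        _ = 3 := Real.rpow_one _
    have h4 := mul_le_mul_of_nonneg_right h3 (by positivity : 0 ≤ C1 * κ * (P : ℝ) ^ η)
    linarith
  have h2 : (L2.card : ℝ) ≤ C3 * (C2 * κ * (κ / M) ^ (1 - η) * P + (P : ℝ) ^ (12 / 13 : ℝ)) := by
    apply hbohr P hP _ (by positivity)
    intro p hp
    rw [hL2, mem_filter] at hp
    obtain ⟨hpL, hbig⟩ := hp
    obtain ⟨hpc, hpP⟩ := hLmem p hpL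
    obtain ⟨hy1, hy2⟩ := hf p hpc
    refine ⟨hpP, (Pool.Agent.H319R2.Tk.od k p (f p) : ℤ), ?_⟩
    have hbig' : M < |((f p : ℤ) : ℝ)| := not_le.1 hbig
    have := hrig k hk2 (f p) p hy1.symm hpc.1 M hM1 (by
      intro j
      refine hbig'.le.trans ?_
      have := hy2 j
      exact_mod_cast this)
    rw [Int.cast_natCast]
    exact this
  have e1 : κ * (κ / M) ^ (1 - η) * P ≤ κ * (P : ℝ) ^ η := by
    have e2 : κ / M = 1 / (3 * P) := by rw [hM]; field_simp
    have e3 : (κ / M) ^ (1 - η) ≤ (1 / (P : ℝ)) ^ (1 - η) := by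
      rw [e2]
      apply Real.rpow_le_rpow (by positivity) _ (by linarith)
      apply div_le_div_of_nonneg_left (by norm_num) hP0 (by linarith)
    have e4 : (1 / (P : ℝ)) ^ (1 - η) * P = (P : ℝ) ^ η := by
      rw [one_div, Real.inv_rpow hP0.le, Real.rpow_sub hP0, Real.rpow_one]
      field_simp
    calc κ * (κ / M) ^ (1 - η) * P ≤ κ * (1 / (P : ℝ)) ^ (1 - η) * P :=
          mul_le_mul_of_nonneg_right (mul_le_mul_of_nonneg_left e3 hκ0.le) hP0.le
      _ = κ * (P : ℝ) ^ η := by rw [mul_assoc, e4]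
  have e2 : (P : ℝ) ^ (12 / 13 : ℝ) ≤ (P : ℝ) ^ η :=
    Real.rpow_le_rpow_of_exponent_le hPr hη12.le
  have e3 : (L.card : ℝ) = L1.card + L2.card := by exact_mod_cast hsplit.symm
  have hpos : 0 ≤ (P : ℝ) ^ η := by positivity
  have h2' : (L2.card : ℝ) ≤ C3 * (C2 + 1) * κ * (P : ℝ) ^ η := by
    refine h2.trans ?_
    have a1 : C2 * κ * (κ / M) ^ (1 - η) * P ≤ C2 * (κ * (P : ℝ) ^ η) := by
      have := mul_le_mul_of_nonneg_left e1 hC2.le
      calc C2 * κ * (κ / M) ^ (1 - η) * P = C2 * (κ * (κ / M) ^ (1 - η) * P) := by ring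
        _ ≤ _ := this
    have a2 : (P : ℝ) ^ η ≤ κ * (P : ℝ) ^ η := le_mul_of_one_le_left hpos hκ1
    have : C3 * (C2 * κ * (κ / M) ^ (1 - η) * P + (P : ℝ) ^ (12 / 13 : ℝ)) ≤
        C3 * (C2 * (κ * (P : ℝ) ^ η) + κ * (P : ℝ) ^ η) := by
      apply mul_le_mul_of_nonneg_left _ hC3.le
      linarith
    refine this.trans (le_of_eq ?_)
    ring
  rw [e3]
  have : 0 ≤ κ * (P : ℝ) ^ η := by positivity
  linarith

end Pool.Agent.Results.MP_7f88e4_nt.CycleLengths
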