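import Pool.Agent.H499R2.NDCor3

set_option autoImplicit false

/-! Natural densities for the `3x+k` maps: basins of the cycles and unbounded orbits. -/

namespace Pool.Agent.Results.MP_7f88e4_nt.NaturalDensities

open Filter Topology Pool.Agent.H499R2.ND

/-- the `3x+k` map on the integers -/
def T (k x : ℤ) : ℤ := if x % 2 = 0 then x / 2 else (3 * x + k) / 2

/-- `c` lies on a cycle of `T_{3,k}` -/
def Periodic (k c : ℤ) : Prop := ∃ p : ℕ, 1 ≤ p ∧ (T k)^[p] c = c

/-- the orbit of `n` is eventually periodic -/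
def EvPer (k n : ℤ) : Prop := ∃ m p : ℕ, 1 ≤ p ∧ (T k)^[m + p] n = (T k)^[m] n

/-- the integers whose orbit passes through `c` -/
def Basin (k c : ℤ) : Set ℤ := {n | ∃ j : ℕ, (T k)^[j] n = c}

/-- `c` is the least element of a cycle; this labels the cycles -/
def Label (k c : ℤ) : Prop := Periodic k c ∧ ∀ j : ℕ, c ≤ (T k)^[j] c

/-- the orbit of `n` is unbounded -/
def Unbounded (k n : ℤ) : Prop := ∀ M : ℤ, ∃ j : ℕ, M < |(T k)^[j] n|

/-- among the integers of sign `s` (`s = 1` or `s = -1`) those in `A` have the natural density `δ` -/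
def HasDensity (s : ℤ) (A : Set ℤ) (δ : ℝ) : Prop :=
  Tendsto (fun N : ℕ => ({n : ℤ | 0 < s * n ∧ s * n ≤ N ∧ n ∈ A}.ncard : ℝ) / N) atTop (𝓝 δ)

theorem unb_iff (k n : ℤ) : Unbounded k n ↔ ¬ EvPer k n := unbounded_iff (T k) n

theorem basin_mg {k c : ℤ} (h : Periodic k c) : Basin k c = Mg (Td k) c := basin_eq (f := Td k) h

theorem label_unique {k c c' : ℤ} (h : Label k c) (h' : Label k c') {n : ℤ}
    (hn : n ∈ Basin k c) (hn' : n ∈ Basin k c') : c = c' := by
  rw [basin_mg h.1] at hn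
  rw [basin_mg h'.1] at hn'
  have h1 : c ∈ Basin k c' := by
    rw [basin_mg h'.1]; exact Mg_trans (Mg_symm hn) hn'
  have h2 : c' ∈ Basin k c := by
    rw [basin_mg h.1]; exact Mg_trans (Mg_symm hn') hn
  obtain ⟨j, hj⟩ := h1
  obtain ⟨i, hi⟩ := h2
  have h3 := h.2 j
  have h4 := h'.2 i
  rw [hj] at h3
  rw [hi] at h4
  omega

theorem inv_ev (k : ℤ) : Inv k {n : ℤ | EvPer k n} := by
  have h : {n : ℤ | EvPer k n}
      = {n : ℤ | ∃ j, ∃ p, 1 ≤ p ∧ (Td k)^[p] ((Td k)^[j] n) = (Td k)^[j] n} := by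
    ext n; exact evper_iff (Td k) n
  rw [h]; exact inv_evper k

theorem ev_label {k n : ℤ} (h : EvPer k n) : ∃ c, Label k c ∧ n ∈ Basin k c := by
  obtain ⟨j, hj⟩ := (evper_iff (T k) n).1 h
  obtain ⟨i, hi⟩ := exists_least hj
  exact ⟨_, ⟨per_iter hj i, hi⟩, i + j, by rw [Function.iterate_add_apply]⟩

theorem label_ev {k c n : ℤ} (hc : Label k c) (hn : n ∈ Basin k c) : EvPer k n := by
  obtain ⟨j, hj⟩ := hn
  exact (evper_iff (T k) n).2 ⟨j, by rw [hj]; exact hc.1⟩

/-- Let `k` be congruent to `1` or `5` mod `6`. (1) For `s = 1` and `s = -1`, among the integers of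
sign `s`: the basin of every cycle has a natural density `δ c`, which is positive if the cycle has
sign `s`; the integers with unbounded orbit have a natural density `υ`; the sum of `δ c` over all
cycles is `1 - υ`; and for every `B` there is `C` such that for all `y ≥ 2` the sum of `δ c` over the
cycles whose basin contains no integer of absolute value `≤ y` is at most `C / (log y)^B`.
(2) Every orbit is eventually periodic exactly when the integers with unbounded orbit have density `0`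
among the positive and among the negative integers. (3) For every nonzero periodic point `c` there is
`C` such that the integers `n` of the sign of `c` whose orbit reaches `c` within `C log |n|` steps have
positive lower density. -/
theorem result (k : ℤ) (hk : k % 6 = 1 ∨ k % 6 = 5) :
    (∀ s : ℤ, (s = 1 ∨ s = -1) → ∃ (δ : ℤ → ℝ) (υ : ℝ),
      (∀ c : ℤ, Periodic k c → HasDensity s (Basin k c) (δ c) ∧ (0 < s * c → 0 < δ c)) ∧
      HasDensity s {n | Unbounded k n} υ ∧
      HasSum (fun c : {c : ℤ // Label k c} => δ c) (1 - υ) ∧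
      (∀ B : ℕ, ∃ C : ℝ, 0 < C ∧ ∀ y : ℝ, 2 ≤ y →
        ∑' c : {c : ℤ // Label k c ∧ ∀ n ∈ Basin k c, y < |(n : ℝ)|}, δ c ≤ C / (Real.log y) ^ B)) ∧
    ((∀ n : ℤ, EvPer k n) ↔
      HasDensity 1 {n | Unbounded k n} 0 ∧ HasDensity (-1) {n | Unbounded k n} 0) ∧
    (∀ c : ℤ, c ≠ 0 → Periodic k c → ∃ C : ℝ,
      0 < liminf (fun x : ℝ => ({n : ℤ | ((|n| : ℤ) : ℝ) ≤ x ∧ 0 < n * c ∧
        ∃ j : ℕ, (j : ℝ) ≤ C * Real.log ((|n| : ℤ) : ℝ) ∧ (T k)^[j] n = c}.ncard : ℝ) / x)
          atTop) := by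
  have hk2 : k % 2 = 1 := by omega
  have hk3 : ¬ (3 : ℤ) ∣ k := by omega
  have hodd : Odd k := Int.odd_iff.2 hk2
  have hc3 := cop_of_not_dvd hk3
  have hU : {n : ℤ | Unbounded k n} = {n : ℤ | EvPer k n}ᶜ := by
    ext n; exact unb_iff k n
  refine ⟨fun s hs => ?_, ?_, ?_⟩
  rotate_left 2
  · rintro c hc ⟨p, hp, hper⟩
    have h3 := Pool.Agent.H366R2.KGen.periodic_not_dvd hk2 hk3 hc hp hper
    obtain ⟨C, _, h⟩ := Pool.Agent.H366R2.PDK.liminf_k Pool.Agent.H366R2.PDK.decay k hk2 hk3 c h3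
    exact ⟨C, h⟩
  · have hex : ∀ a : ℤ, ∃ l : ℝ, 0 ≤ l ∧ l ≤ 1 ∧ HD s (Mg (Td k) a) l := fun a =>
      dens_side hodd hc3 hs (Mg_inv k a)
    choose δ hδ0 hδ1 hδ using hex
    obtain ⟨l, _, _, hl⟩ := dens_side hodd hc3 hs (inv_ev k)
    obtain ⟨u, _, _, hu⟩ := dens_side hodd hc3 hs (inv_ev k).compl
    have hlu := HD_compl hl hu
    refine ⟨δ, u, ?_, ?_, ?_, ?_⟩
    · intro c hc
      rw [basin_mg hc]
      refine ⟨HD_ncard hs (hδ c), fun h0 => ?_⟩
      have hc0 : c ≠ 0 := by rintro rfl; simp at h0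
      obtain ⟨p, hp, hpc⟩ := hc
      have h3 := Pool.Agent.H366R2.KGen.periodic_not_dvd hk2 hk3 hc0 hp hpc
      exact class_pos hodd hk3 hs (Mg_inv k c) (Mg_self _ c) h0 h3 (hδ c)
    · rw [hU]; exact HD_ncard hs hu
    · have e : 1 - u = l := by linarith
      rw [e]
      exact part_sum (ι := {c : ℤ // Label k c}) hodd hk3 hs (fun c => Mg (Td k) c.1) (fun c => δ c.1)
        (fun c => hδ c.1) (fun c c' hcc => by
          rw [Set.disjoint_left]
          intro n hn hn'
          apply hcc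
          apply Subtype.ext
          apply label_unique c.2 c'.2 (n := n)
          · rw [basin_mg c.2.1]; exact hn
          · rw [basin_mg c'.2.1]; exact hn')
        (fun c => Mg_inv k c.1) (inv_ev k)
        (fun n hn => by
          obtain ⟨c, hc, hnc⟩ := ev_label hn
          rw [basin_mg hc.1] at hnc
          exact ⟨⟨c, hc⟩, hnc⟩)
        (fun c n hnc => by
          apply label_ev c.2
          rw [basin_mg c.2.1]; exact hnc) hl
    · intro B
      obtain ⟨K, hK, h⟩ := tail_le B hodd hk3 hs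
      refine ⟨K, hK, fun y hy => ?_⟩
      have hinv : Inv k {n : ℤ | ∃ c, Label k c ∧ n ∈ Basin k c ∧ ∀ m ∈ Basin k c, y < |(m : ℝ)|} := by
        intro x
        constructor
        · rintro ⟨c, hc, hx, hm⟩
          refine ⟨c, hc, ?_, hm⟩
          rw [basin_mg hc.1] at hx ⊢
          exact (Mg_step _ _ _).1 hx
        · rintro ⟨c, hc, hx, hm⟩
          refine ⟨c, hc, ?_, hm⟩
          rw [basin_mg hc.1] at hx ⊢
          exact (Mg_step _ _ _).2 hx
      obtain ⟨l', _, _, hl'⟩ := dens_side hodd hc3 hs hinv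
      have hsum := part_sum (ι := {c : ℤ // Label k c ∧ ∀ n ∈ Basin k c, y < |(n : ℝ)|}) hodd hk3 hs
        (fun c => Mg (Td k) c.1) (fun c => δ c.1)
        (fun c => hδ c.1) (fun c c' hcc => by
          rw [Set.disjoint_left]
          intro n hn hn'
          apply hcc
          apply Subtype.ext
          apply label_unique c.2.1 c'.2.1 (n := n)
          · rw [basin_mg c.2.1.1]; exact hn
          · rw [basin_mg c'.2.1.1]; exact hn')
        (fun c => Mg_inv k c.1) hinv
        (fun n hnS => by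
          obtain ⟨c, hc, hnc, hm⟩ := hnS
          rw [basin_mg hc.1] at hnc
          exact ⟨⟨c, hc, hm⟩, hnc⟩)
        (fun c n hnc => by
          have : n ∈ Basin k c.1 := by rw [basin_mg c.2.1.1]; exact hnc
          exact ⟨c.1, c.2.1, this, c.2.2⟩) hl'
      rw [hsum.tsum_eq]
      apply h y hy _ hinv _ l' hl'
      rintro x ⟨c, hc, hx, hm⟩
      exact hm x hx
  · constructor
    · intro h
      have hempty : ∀ s : ℤ, (s = 1 ∨ s = -1) → HasDensity s {n | Unbounded k n} 0 := by
        intro s hs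
        obtain ⟨u, _, _, hu⟩ := dens_side hodd hc3 hs (inv_ev k).compl
        have : u = 0 := one_eq_zero hs (S := {n : ℤ | EvPer k n}ᶜ) (fun a ha _ => ha (h a)) hu
        rw [hU, ← this]
        exact HD_ncard hs hu
      exact ⟨hempty 1 (Or.inl rfl), hempty (-1) (Or.inr rfl)⟩
    · rintro ⟨hp, hm⟩ n
      by_contra hn
      have hzero : ∀ s : ℤ, (s = 1 ∨ s = -1) → HasDensity s {n | Unbounded k n} 0 := by
        rintro s (rfl | rfl)
        · exact hp
        · exact hm
      have hn0 : n ≠ 0 := by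
        rintro rfl
        exact hn ⟨0, 1, le_refl _, rfl⟩
      obtain ⟨j, hj⟩ := exists_prime3' hodd hk3 _ n hn0 le_rfl
      set a := (Td k)^[j] n with ha
      have haU : a ∈ {n : ℤ | EvPer k n}ᶜ := (inv_iter (inv_ev k).compl j n).1 hn
      have ha0 : a ≠ 0 := by
        intro h0; apply hj; rw [h0]; exact dvd_zero _
      obtain ⟨s, hs, hsa⟩ : ∃ s : ℤ, (s = 1 ∨ s = -1) ∧ 0 < s * a := by
        rcases lt_or_gt_of_ne ha0 with h | h
        · exact ⟨-1, Or.inr rfl, by omega⟩
        · exact ⟨1, Or.inl rfl, by omega⟩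
      obtain ⟨u, _, _, hu⟩ := dens_side hodd hc3 hs (inv_ev k).compl
      have hpos := class_pos hodd hk3 hs (inv_ev k).compl haU hsa hj hu
      have h1 := HD_ncard hs hu
      have h2 := hzero s hs
      rw [hU] at h2
      have := tendsto_nhds_unique h1 h2
      linarith

end Pool.Agent.Results.MP_7f88e4_nt.NaturalDensities
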