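import Mathlib
import Pool.Agent.H319R2.GTk

set_option autoImplicit false

/-!
Every orbit of the `3x+k` map is power-sparse, uniformly in the starting value and in `k`.
-/

namespace Pool.Agent.Results.MP_7f88e4_nt.OrbitCount

/-- The `3x+k` map on the integers. -/
def T (k : ℤ) (x : ℤ) : ℤ := if x % 2 = 0 then x / 2 else (3 * x + k) / 2

/-- For every `η < 1` larger than the base-two binary entropy `0.94995...` of `log 2 / log 3` there
is an absolute constant `A` such that for every `k ≡ 1, 5 mod 6`, every integer `x` and every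
`X ≥ 1` the orbit of `x` under the `3x+k` map contains at most `A |k| ^ (1 - η) X ^ η` integers of
absolute value at most `X`; `η = 0.951` is admissible. -/
theorem result :
    (∀ η : ℝ, Real.binEntropy (Real.log 2 / Real.log 3) / Real.log 2 < η → η < 1 →
      ∃ A : ℝ, ∀ k : ℤ, k % 6 = 1 ∨ k % 6 = 5 → ∀ (x : ℤ) (X : ℝ), 1 ≤ X →
        (Set.ncard {y : ℤ | (∃ n : ℕ, (T k)^[n] x = y) ∧ |(y : ℝ)| ≤ X} : ℝ) ≤
          A * |(k : ℝ)| ^ (1 - η) * X ^ η) ∧
    Real.binEntropy (Real.log 2 / Real.log 3) / Real.log 2 < 0.951 := by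
  classical
  refine ⟨?_, Pool.Agent.H319R2.beta_lt⟩
  intro η hη hη1
  change Pool.Agent.H319R2.beta < η at hη
  obtain ⟨A, hA0, hA⟩ := Pool.Agent.H319R2.Tk.sparse η hη hη1
  refine ⟨A, fun k hk x X hX => ?_⟩
  set S : Set ℤ := {y : ℤ | (∃ n : ℕ, (T k)^[n] x = y) ∧ |(y : ℝ)| ≤ X} with hS
  have hfin : S.Finite := by
    apply (Set.finite_Icc (-⌈X⌉) ⌈X⌉).subset
    intro y hy
    have h := hy.2
    rw [abs_le] at h
    have h1 := Int.le_ceil X
    constructor
    · have : (-(⌈X⌉ : ℝ)) ≤ y := by linarith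
      exact_mod_cast this
    · have : (y : ℝ) ≤ ⌈X⌉ := by linarith
      exact_mod_cast this
  rw [Set.ncard_eq_toFinset_card S hfin]
  have hF : ∀ y ∈ hfin.toFinset, (∃ n : ℕ, (T k)^[n] x = y) ∧ |(y : ℝ)| ≤ X := by
    intro y hy
    rw [Set.Finite.mem_toFinset] at hy
    exact hy
  obtain ⟨r, hinj, hr⟩ := Pool.Agent.H319R2.G.finite_subset_path (T k) x hfin.toFinset
    (fun y hy => (hF y hy).1)
  apply hA k (by omega) _ (Pool.Agent.H319R2.G.tame_path (T k) x r hinj) X hX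
  intro y hy
  obtain ⟨i, hi, he⟩ := hr y hy
  exact ⟨⟨i, hi, he⟩, (hF y hy).2⟩

end Pool.Agent.Results.MP_7f88e4_nt.OrbitCount
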