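import Mathlib
import Pool.Agent.H499R2.CO.R7

set_option autoImplicit false

/-! Sparse sufficient sets for the `3x+k` maps. -/

namespace Pool.Agent.Results.MP_7f88e4_nt.SufficientSets

open Filter Topology

/-- the `3x+k` map on the integers -/
def T (k x : ℤ) : ℤ := if x % 2 = 0 then x / 2 else (3 * x + k) / 2

/-- the positive integers with the property `P` have natural density one -/
def AlmostAll (P : ℕ → Prop) : Prop :=
  Tendsto (fun N : ℕ => ({n : ℕ | 1 ≤ n ∧ n ≤ N ∧ P n}.ncard : ℝ) / N) atTop (𝓝 1)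

/-- For `s = 1` and `s = -1` and almost all `n` the set `W` contains one of the integers
`s n, s n + k, s n + 2 k, ..., s n + g(n) k`. -/
def MeetsRuns (k : ℤ) (g : ℕ → ℕ) (W : Set ℤ) : Prop :=
  ∀ s : ℤ, s = 1 ∨ s = -1 → AlmostAll fun n => ∃ h ≤ g n, s * n + k * h ∈ W

/-- SUFFICIENT SETS. Let `k ≡ 1` or `5` modulo `6`, `g n = o(√(log n) / log log n)`, and let `W` be a
set of integers which meets almost all runs `s n, s n + k, ..., s n + g(n) k`. Every set `R` of integers
with `x ∈ R ↔ T x ∈ R` which contains `W` contains all the nonzero integers. -/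
theorem result (k : ℤ) (hk : k % 6 = 1 ∨ k % 6 = 5) (g : ℕ → ℕ)
    (hg : Tendsto (fun n : ℕ => (g n : ℝ) * Real.log (Real.log n) / √ (Real.log n)) atTop (𝓝 0))
    (W : Set ℤ) (hW : MeetsRuns k g W) (R : Set ℤ) (hR : ∀ x, x ∈ R ↔ T k x ∈ R) (hWR : W ⊆ R) :
    ∀ x : ℤ, x ≠ 0 → x ∈ R := by
  have hodd : Odd k := Int.odd_iff.2 (by omega)
  have h3 : ¬ (3 : ℤ) ∣ k := by omega
  exact Pool.Agent.H499R2.CO.suff_D hodd h3 (g := g) hg hW hR hWR

end Pool.Agent.Results.MP_7f88e4_nt.SufficientSets
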